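import Pool.Agent.H.MP_3b56a7_co.A

set_option autoImplicit false

namespace Pool.Agent.Results.MP_3b56a7_co.Balanced

open Finset Pool.Agent.H.MP_3b56a7_co

theorem result (m n r : ℕ) (hm : 1 ≤ m) (c : Fin n → Fin r) :
    (univ.filter (fun p : (Fin m → Fin n) × (Fin m → Fin n) =>
        ∑ i, ((p.1 i : ℕ) + 1) = ∑ i, ((p.2 i : ℕ) + 1))).card ≤
      r ^ (2 * m - 1) * (univ.filter (fun p : (Fin m → Fin n) × (Fin m → Fin n) =>
        ∑ i, ((p.1 i : ℕ) + 1) = ∑ i, ((p.2 i : ℕ) + 1) ∧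
          ∀ i j, c (p.1 i) = c (p.1 j) ∧ c (p.1 i) = c (p.2 j))).card := by
  simp only [sum_add_distrib, add_left_inj]
  obtain ⟨k, hk⟩ : ∃ k, 2 * m = k + 1 := ⟨2 * m - 1, by omega⟩
  have hk' : 2 * m - 1 = k := by omega
  rw [hk']
  have h0 := energy m n univ
  simp only [mem_univ, and_self, implies_true, and_true] at h0
  have h1 := fun j : Fin r => energy m n (univ.filter (fun x => c x = j))
  have hN : (0 : ℝ) < (m * n + 1 : ℕ) := by positivity
  have h2 : ∑ j : Fin r, (univ.filter (fun p : (Fin m → Fin n) × (Fin m → Fin n) =>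
        ∑ i, (p.1 i : ℕ) = ∑ i, (p.2 i : ℕ) ∧ ∀ i, p.1 i ∈ univ.filter (fun x => c x = j) ∧
          p.2 i ∈ univ.filter (fun x => c x = j))).card ≤
      (univ.filter (fun p : (Fin m → Fin n) × (Fin m → Fin n) =>
        ∑ i, (p.1 i : ℕ) = ∑ i, (p.2 i : ℕ) ∧
          ∀ i j, c (p.1 i) = c (p.1 j) ∧ c (p.1 i) = c (p.2 j))).card := by
    rw [← card_biUnion]
    · apply card_le_card
      intro p hp
      simp only [mem_biUnion, mem_filter, mem_univ, true_and] at hp ⊢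
      obtain ⟨j, h, h'⟩ := hp
      exact ⟨h, fun a b => ⟨by rw [(h' a).1, (h' b).1], by rw [(h' a).1, (h' b).2]⟩⟩
    · intro j _ j' _ hj
      rw [Function.onFun, disjoint_left]
      intro p hp hp'
      simp only [mem_filter, mem_univ, true_and] at hp hp'
      exact hj ((hp.2 ⟨0, hm⟩).1.symm.trans (hp'.2 ⟨0, hm⟩).1)
  have h3 : ∀ t : ZMod (m * n + 1),
      ‖∑ x : Fin n, ZMod.stdAddChar (t * ((x : ℕ) : ZMod (m * n + 1)))‖ ^ (2 * m) ≤
      (r : ℝ) ^ k * ∑ j : Fin r, ‖∑ x ∈ univ.filter (fun x => c x = j),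
        ZMod.stdAddChar (t * ((x : ℕ) : ZMod (m * n + 1)))‖ ^ (2 * m) := by
    intro t
    rw [← sum_fiberwise univ c, hk]
    refine (pow_le_pow_left₀ (norm_nonneg _) (norm_sum_le _ _) _).trans ?_
    simpa using pow_sum_le_card_mul_sum_pow (s := (univ : Finset (Fin r)))
      (fun j _ => norm_nonneg (∑ x ∈ univ.filter (fun x => c x = j),
        ZMod.stdAddChar (t * ((x : ℕ) : ZMod (m * n + 1))))) k
  have h4 := sum_le_sum fun t (_ : t ∈ univ) => h3 t
  rw [h0, ← mul_sum, sum_comm] at h4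
  simp only [h1] at h4
  rw [← mul_sum, mul_left_comm, ← Nat.cast_sum] at h4
  have h5 := le_of_mul_le_mul_left h4 hN
  have h6 := h5.trans (mul_le_mul_of_nonneg_left (Nat.cast_le.2 h2) (by positivity))
  exact_mod_cast h6

end Pool.Agent.Results.MP_3b56a7_co.Balanced
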